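import Pool.Agent.H20.SM.TZ
import Pool.Agent.H31.CRG.DEb
import Pool.Agent.H14.CRG.QFB
import Pool.Agent.H14.CRG.S2R
import Pool.Agent.H33.CRG.S1R
import Pool.Agent.H48.CRG.UB
import Pool.Agent.H26.CRG.SA
import Pool.Agent.H36.CRG.VG
import Pool.Agent.H65.CRG.Base

/-!
# The terms with a small relation (row DEz of the board `sm_modules`; MP_347b49_nt)
-/

set_option autoImplicit false

open NumberField NumberField.InfinitePlace Complex Filter Topology MeasureTheory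

namespace Pool.Agent.H46.SM

open Pool.Agent.H28.RC Pool.Agent.H25.HK Pool.Agent.H37.CV Pool.Agent.H65.CRZ Pool.Agent.H65.CRG
open Pool.Agent.H31.CRG
open Pool.Agent.H94.CV.F1 (nm_top pf_top one_le_nS mem_DM xw_le)
open Pool.Agent.H21.CRZ (cpw term_eq cpow_le cpow_le' nS_pos' re1 im1 re2 im2 U_le)

/-- one side with a relation, all ideals -/
theorem dez_side {K : Type} [Field K] [NumberField K] (hSA : Pool.Agent.H65.CRG.T_SA)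
    (E : ℂ → ℂ) (hE : IsE K E) :
    ∃ C B : ℝ, 0 < C ∧ 0 ≤ B ∧ ∀ (A M κ w : ℝ) (α β : ℂ) (u : ℝ)
      (R₁ R₂ : Finset (PrI K)), 0 < A →
      1 ≤ M → 1 ≤ w → ‖α‖ ≤ 1 / 16 → ‖β‖ ≤ 1 / 16 → α + β ≠ 0 → ‖α‖ * Real.log M ≤ κ →
      ‖β‖ * Real.log M ≤ κ → Disjoint R₁ R₂ →
      ‖(∑ S ∈ DM K M, ∑ T ∈ DM K M, Wr M α β R₁ R₂ S T *
          Sn (K := K) ⊤ (1 / 2 + α + u * I) (1 / 2 + β - u * I) (Yr A w R₁ R₂ S T)) -
        1 / (α + β) * (E (1 + (α + β)) * QF K M α β (α + β) R₁ R₂ -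
          (rho K : ℂ) * Gq (1 / 2 + α + u * I) (1 / 2 + β - u * I) (-((α + β) / 2)) ^
            nrComplexPlaces K * cexp ((α + β) ^ 2 / 2) *
            (((A ^ 2 / w : ℝ) : ℂ) ^ (-((α + β) / 2)) *
              QF K M ((α - β) / 2) ((β - α) / 2) ((α - β) / 2 + (β - α) / 2) R₁ R₂))‖ ≤
      C * (1 + |u|) ^ B * Real.exp (6 * κ) * (2 ^ (R₁.card + R₂.card) *
        GS np (PM K M) M ^ 3) * ((A ^ 2 / (M ^ 2 * w)) ^ (-(1 / 8) : ℝ) / ‖α + β‖) := by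
  obtain ⟨C₁, B₁, hC₁, hB₁, h1⟩ := hSA K E hE
  refine ⟨C₁ * 3 ^ B₁, B₁, by positivity, hB₁, ?_⟩
  intro A M κ w α β u R₁ R₂ hA hM hw hα16 hβ16 hω hακ hβκ hd
  obtain ⟨s₁, hs₁⟩ : ∃ s₁, s₁ = 1 / 2 + α + u * I := ⟨_, rfl⟩
  obtain ⟨s₂, hs₂⟩ : ∃ s₂, s₂ = 1 / 2 + β - u * I := ⟨_, rfl⟩
  have hr1 : |s₁.re - 1 / 2| ≤ 1 / 16 := by
    rw [hs₁, re1, add_sub_cancel_left]
    exact (Complex.abs_re_le_norm α).trans hα16
  have hr2 : |s₂.re - 1 / 2| ≤ 1 / 16 := by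
    rw [hs₂, re2, add_sub_cancel_left]
    exact (Complex.abs_re_le_norm β).trans hβ16
  have hsum : s₁ + s₂ = 1 + (α + β) := by
    rw [hs₁, hs₂]
    ring
  have hω8 : ‖α + β‖ ≤ 1 / 8 := (norm_add_le _ _).trans (by linarith)
  have hU : 1 + |s₁.im| + |s₂.im| ≤ 3 * (1 + |u|) := by
    rw [hs₁, hs₂]
    exact U_le hα16 hβ16 u
  have hU0 : 0 ≤ 1 + |s₁.im| + |s₂.im| := by positivity
  have hn : 0 < ‖α + β‖ := norm_pos_iff.2 hω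
  have hU1 : (1 + |s₁.im| + |s₂.im|) ^ B₁ ≤ 3 ^ B₁ * (1 + |u|) ^ B₁ := by
    calc (1 + |s₁.im| + |s₂.im|) ^ B₁ ≤ (3 * (1 + |u|)) ^ B₁ := Real.rpow_le_rpow hU0 hU hB₁
      _ = 3 ^ B₁ * (1 + |u|) ^ B₁ := Real.mul_rpow (by norm_num) (by positivity)
  obtain ⟨W, hW⟩ : ∃ W, W = (1 + |u|) ^ B₁ := ⟨_, rfl⟩
  have hW0 : 0 < W := by rw [hW]; positivity
  rw [← hW] at hU1 ⊢
  have hM0 : 0 < M := by linarith
  have hw0 : 0 < w := by linarith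
  obtain ⟨x, hx⟩ : ∃ x, x = (A ^ 2 / (M ^ 2 * w)) ^ (-(1 / 8) : ℝ) / ‖α + β‖ := ⟨_, rfl⟩
  have hx0 : 0 ≤ x := by rw [hx]; positivity
  rw [← hx]
  -- one pair
  have hterm : ∀ S ∈ DM K M, ∀ T ∈ DM K M,
      ‖Sn (K := K) ⊤ s₁ s₂ (Yr A w R₁ R₂ S T) - 1 / (α + β) * (E (1 + (α + β)) -
        (rho K : ℂ) * Gq s₁ s₂ (-((α + β) / 2)) ^ nrComplexPlaces K *
          cexp ((α + β) ^ 2 / 2) *
          ((Yr A w R₁ R₂ S T : ℝ) : ℂ) ^ (-((α + β) / 2)))‖ ≤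
      C₁ * 3 ^ B₁ * W * x := by
    intro S hS T hT
    have hY := Yr_pos hA hw0 hM hd hS hT
    obtain ⟨hY1, hY2⟩ := Yr_bd hA hw hM hd hS hT
    obtain ⟨Y, hYd⟩ : ∃ Y, Y = Yr A w R₁ R₂ S T := ⟨_, rfl⟩
    rw [← hYd] at hY hY1 hY2 ⊢
    have k1 := h1 s₁ s₂ (α + β) Y hr1 hr2 hsum hω hω8 hY
    have k3 : Y ^ (-(1 / 8) : ℝ) / ‖α + β‖ ≤ x := by
      rw [hx]
      exact div_le_div_of_nonneg_right
        (Real.rpow_le_rpow_of_nonpos (by positivity) hY1 (by norm_num)) hn.le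
    refine k1.trans ?_
    rw [mul_div_assoc]
    calc C₁ * (1 + |s₁.im| + |s₂.im|) ^ B₁ * (Y ^ (-(1 / 8) : ℝ) / ‖α + β‖) ≤
        C₁ * (3 ^ B₁ * W) * x :=
          mul_le_mul (mul_le_mul_of_nonneg_left hU1 hC₁.le) k3 (by positivity) (by positivity)
      _ = C₁ * 3 ^ B₁ * W * x := by ring
  -- the sum
  have hpol := polar_eq (K := K) hA hw0 hM α β hd
  obtain ⟨G, hG⟩ : ∃ G, G = (rho K : ℂ) * Gq s₁ s₂ (-((α + β) / 2)) ^ nrComplexPlaces K *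
    cexp ((α + β) ^ 2 / 2) := ⟨_, rfl⟩
  rw [← hs₁, ← hs₂, ← hG]
  rw [← hG] at hterm
  have e1 : (∑ S ∈ DM K M, ∑ T ∈ DM K M, Wr M α β R₁ R₂ S T *
          Sn (K := K) ⊤ s₁ s₂ (Yr A w R₁ R₂ S T)) -
        1 / (α + β) * (E (1 + (α + β)) * QF K M α β (α + β) R₁ R₂ -
          G * (((A ^ 2 / w : ℝ) : ℂ) ^ (-((α + β) / 2)) *
              QF K M ((α - β) / 2) ((β - α) / 2) ((α - β) / 2 + (β - α) / 2) R₁ R₂)) =
      ∑ S ∈ DM K M, ∑ T ∈ DM K M, Wr M α β R₁ R₂ S T *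
        (Sn (K := K) ⊤ s₁ s₂ (Yr A w R₁ R₂ S T) - 1 / (α + β) * (E (1 + (α + β)) -
        G * ((Yr A w R₁ R₂ S T : ℝ) : ℂ) ^ (-((α + β) / 2)))) := by
    rw [← hpol]
    have e3 : ∀ S T, Wr M α β R₁ R₂ S T * (Sn (K := K) ⊤ s₁ s₂ (Yr A w R₁ R₂ S T) -
        1 / (α + β) * (E (1 + (α + β)) -
        G * ((Yr A w R₁ R₂ S T : ℝ) : ℂ) ^ (-((α + β) / 2)))) =
        Wr M α β R₁ R₂ S T * Sn (K := K) ⊤ s₁ s₂ (Yr A w R₁ R₂ S T) -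
        (1 / (α + β) * E (1 + (α + β)) * Wr M α β R₁ R₂ S T -
          1 / (α + β) * G *
          (Wr M α β R₁ R₂ S T * ((Yr A w R₁ R₂ S T : ℝ) : ℂ) ^ (-((α + β) / 2)))) := by
      intro S T
      ring
    have e4 : QF K M α β (α + β) R₁ R₂ =
      ∑ S ∈ DM K M, ∑ T ∈ DM K M, Wr M α β R₁ R₂ S T := rfl
    rw [e4]
    simp only [e3, Finset.sum_sub_distrib, ← Finset.mul_sum]
    ring
  rw [e1]
  refine (norm_sum_le _ _).trans ((Finset.sum_le_sum fun S _ => norm_sum_le _ _).trans ?_)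
  have hV0 : 0 ≤ C₁ * 3 ^ B₁ * W * x := by positivity
  calc ∑ S ∈ DM K M, ∑ T ∈ DM K M, ‖Wr M α β R₁ R₂ S T *
        (Sn (K := K) ⊤ s₁ s₂ (Yr A w R₁ R₂ S T) - 1 / (α + β) * (E (1 + (α + β)) -
        G * ((Yr A w R₁ R₂ S T : ℝ) : ℂ) ^ (-((α + β) / 2))))‖ ≤
      ∑ S ∈ DM K M, ∑ T ∈ DM K M, (Real.exp (6 * κ) * (C₁ * 3 ^ B₁ * W * x)) *
          (gg np R₁ R₂ S T / (nS np S * nS np T)) := by
        refine Finset.sum_le_sum fun S hS => Finset.sum_le_sum fun T hT => ?_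
        rw [norm_mul]
        have k1 := Wr_le hM hακ hβκ hd hS hT
        have k2 := hterm S hS T hT
        have k3 := mul_le_mul k1 k2 (norm_nonneg _) ((norm_nonneg _).trans k1)
        refine k3.trans (le_of_eq ?_)
        ring
    _ = (Real.exp (6 * κ) * (C₁ * 3 ^ B₁ * W * x)) *
        ∑ S ∈ DM K M, ∑ T ∈ DM K M, (gg np R₁ R₂ S T / (nS np S * nS np T)) := by
        simp only [Finset.mul_sum]
    _ ≤ (Real.exp (6 * κ) * (C₁ * 3 ^ B₁ * W * x)) *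
        (2 ^ (R₁.card + R₂.card) * GS np (PM K M) M ^ 3) := by
        refine mul_le_mul_of_nonneg_left ?_ (by positivity)
        exact (a_CB (PrI K) np (PM K M) R₁ R₂ M two_le_np hM hd).2
    _ = _ := by ring

/-- the power of the conductor -/
theorem dez_cpow {A M w δ₀ C₁ C₀ L : ℝ} (hM : 2 ≤ M) (hL : L = Real.log M) (hw : 1 ≤ w)
    (hwM : w ≤ M) (hδ₀ : 0 < δ₀) (hC₁ : 0 < C₁) (hC₀ : 0 < C₀) (hA1 : M ^ (1 + δ₀) ≤ A)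
    (hA2 : A ≤ M ^ C₁) {z : ℂ} (hz : ‖z‖ ≤ C₀ / L) :
    ‖(((A ^ 2 / w : ℝ) : ℂ)) ^ z‖ ≤ Real.exp (C₀ * (2 * C₁ + 1)) := by
  have hM0 : 0 < M := by linarith
  have hw0 : 0 < w := by linarith
  have hL0 : 0 < L := by
    rw [hL]
    exact Real.log_pos (by linarith)
  have hA1' : 1 ≤ A := le_trans (Real.one_le_rpow (by linarith) (by linarith)) hA1
  have hA0 : 0 < A := by linarith
  have hAw : 0 < A ^ 2 / w := by positivity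
  rw [Complex.norm_cpow_eq_rpow_re_of_pos hAw, Real.rpow_def_of_pos hAw]
  apply Real.exp_le_exp.2
  have k1 : |z.re| ≤ C₀ / L := (Complex.abs_re_le_norm _).trans hz
  have k2 : |Real.log (A ^ 2 / w)| ≤ (2 * C₁ + 1) * L := by
    rw [Real.log_div (by positivity) hw0.ne', Real.log_pow]
    have l1 : 0 ≤ Real.log A := Real.log_nonneg hA1'
    have l2 : Real.log A ≤ C₁ * L := by
      rw [hL, ← Real.log_rpow hM0]
      exact Real.log_le_log hA0 hA2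
    have l3 : 0 ≤ Real.log w := Real.log_nonneg hw
    have l4 : Real.log w ≤ L := by
      rw [hL]
      exact Real.log_le_log hw0 hwM
    have l5 : 0 < C₁ * L := by positivity
    push_cast
    rw [abs_le]
    constructor
    · linarith
    · linarith
  calc Real.log (A ^ 2 / w) * z.re ≤ |Real.log (A ^ 2 / w) * z.re| := le_abs_self _
    _ = |Real.log (A ^ 2 / w)| * |z.re| := abs_mul _ _
    _ ≤ ((2 * C₁ + 1) * L) * (C₀ / L) :=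
        mul_le_mul k2 k1 (abs_nonneg _) (by positivity)
    _ = C₀ * (2 * C₁ + 1) := by
      field_simp

/-- the size of the argument -/
theorem dez_size {A M w δ₀ δ : ℝ} (hM : 2 ≤ M) (hA1 : M ^ (1 + δ₀) ≤ A)
    (hw : 0 < w) (hδ : δ ≤ δ₀) (hwδ : w ≤ M ^ δ) :
    (A ^ 2 / (M ^ 2 * w)) ^ (-(1 / 8) : ℝ) ≤ M ^ (-(δ₀ / 8)) := by
  have hM0 : 0 < M := by linarith
  have hM1 : 1 ≤ M := by linarith
  have e0 : (M ^ (1 + δ₀)) ^ 2 = M ^ (2 + 2 * δ₀) := by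
    rw [← Real.rpow_natCast (M ^ (1 + δ₀)), ← Real.rpow_mul hM0.le]
    congr 1
    push_cast
    ring
  have e1 : M ^ 2 = M ^ (2 : ℝ) := by
    rw [← Real.rpow_natCast]
    norm_num
  have h1 : M ^ δ₀ ≤ A ^ 2 / (M ^ 2 * w) := by
    rw [le_div_iff₀ (by positivity)]
    calc M ^ δ₀ * (M ^ 2 * w) ≤ M ^ δ₀ * (M ^ (2 : ℝ) * M ^ δ) := by
          rw [e1]
          gcongr
      _ = M ^ (δ₀ + (2 + δ)) := by
          rw [Real.rpow_add hM0, Real.rpow_add hM0]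
      _ ≤ M ^ (2 + 2 * δ₀) := Real.rpow_le_rpow_of_exponent_le hM1 (by linarith)
      _ = (M ^ (1 + δ₀)) ^ 2 := e0.symm
      _ ≤ A ^ 2 := pow_le_pow_left₀ (by positivity) hA1 2
  refine (Real.rpow_le_rpow_of_nonpos (by positivity) h1 (by norm_num)).trans (le_of_eq ?_)
  rw [← Real.rpow_mul hM0.le]
  congr 1
  ring

/-- the bound of the forms -/
theorem dez_form {K : Type} [Field K] [NumberField K] {CQ C₀ L M lw P2 : ℝ}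
    (hQ : ∀ (M : ℝ) (a b : ℂ), 2 ≤ M → ‖a‖ ≤ C₀ / Real.log M → ‖b‖ ≤ C₀ / Real.log M →
      ∀ R₁ R₂ : Finset (PrI K), R₁ ⊆ PM K M → R₂ ⊆ PM K M → Disjoint R₁ R₂ → R₁.Nonempty →
      ‖QF K M a b (a + b) R₁ R₂‖ ≤
        CQ * 2 ^ (R₁.card + R₂.card) * (1 + Real.log (nS np R₁)) / Real.log M ^ 2)
    (hCQ : 1 ≤ CQ) (hM : 2 ≤ M) (hL : 0 < L)
    (hlM : L = Real.log M) {R₁ R₂ : Finset (PrI K)} (h1 : R₁ ⊆ PM K M) (h2 : R₂ ⊆ PM K M)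
    (hd : Disjoint R₁ R₂) (hn : R₁.Nonempty) (hP2 : P2 = 2 ^ (R₁.card + R₂.card))
    (hlw : Real.log (nS np R₁) ≤ lw) {x y : ℂ} (hx : ‖x‖ ≤ C₀ / L) (hy : ‖y‖ ≤ C₀ / L) :
    ‖QF K M x y (x + y) R₁ R₂‖ ≤ CQ / L ^ 2 * (P2 * (1 + lw)) := by
  rw [hlM] at hx hy
  refine (hQ M x y hM hx hy _ _ h1 h2 hd hn).trans ?_
  rw [← hP2, ← hlM]
  have hP0 : 0 < P2 := by rw [hP2]; positivity
  calc CQ * P2 * (1 + Real.log (nS np R₁)) / L ^ 2 ≤ CQ * P2 * (1 + lw) / L ^ 2 := by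
        refine div_le_div_of_nonneg_right ?_ (by positivity)
        exact mul_le_mul_of_nonneg_left (by linarith) (by positivity)
    _ = _ := by ring

/-- the core of the bound, with all parameters -/
theorem dez_core {K : Type} [Field K] [NumberField K] {E : ℂ → ℂ} {CS BS CG BG CU CQ CE C₀ c g
    e₂ B X₁ C₁ δ₀ : ℝ} {n : ℕ} (hn : n = nrComplexPlaces K)
    (hside : ∀ (A M κ w : ℝ) (α β : ℂ) (u : ℝ)
      (R₁ R₂ : Finset (PrI K)), 0 < A →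
      1 ≤ M → 1 ≤ w → ‖α‖ ≤ 1 / 16 → ‖β‖ ≤ 1 / 16 → α + β ≠ 0 → ‖α‖ * Real.log M ≤ κ →
      ‖β‖ * Real.log M ≤ κ → Disjoint R₁ R₂ →
      ‖(∑ S ∈ DM K M, ∑ T ∈ DM K M, Wr M α β R₁ R₂ S T *
          Sn (K := K) ⊤ (1 / 2 + α + u * I) (1 / 2 + β - u * I) (Yr A w R₁ R₂ S T)) -
        1 / (α + β) * (E (1 + (α + β)) * QF K M α β (α + β) R₁ R₂ -
          (rho K : ℂ) * Gq (1 / 2 + α + u * I) (1 / 2 + β - u * I) (-((α + β) / 2)) ^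
            nrComplexPlaces K * cexp ((α + β) ^ 2 / 2) *
            (((A ^ 2 / w : ℝ) : ℂ) ^ (-((α + β) / 2)) *
              QF K M ((α - β) / 2) ((β - α) / 2) ((α - β) / 2 + (β - α) / 2) R₁ R₂))‖ ≤
      CS * (1 + |u|) ^ BS * Real.exp (6 * κ) * (2 ^ (R₁.card + R₂.card) *
        GS np (PM K M) M ^ 3) * ((A ^ 2 / (M ^ 2 * w)) ^ (-(1 / 8) : ℝ) / ‖α + β‖))
    (hCS : 0 < CS) (hBS : 0 ≤ BS) (hCG : 0 < CG) (hBG : 0 ≤ BG)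
    (hG : ∀ s w : ℂ, 1 / 4 ≤ s.re → s.re ≤ 3 / 4 → -(1 / 8) ≤ w.re → w.re ≤ 1 →
      ‖Gamma (s + w)‖ ≤ CG * (1 + |s.im|) ^ BG * Real.exp (2 * |w.im|) * ‖Gamma s‖)
    (hGU : ∀ M : ℝ, 1 ≤ M → GS np (PM K M) M ≤ CU * (1 + Real.log M))
    (hQ : ∀ (M : ℝ) (a b : ℂ), 2 ≤ M → ‖a‖ ≤ C₀ / Real.log M → ‖b‖ ≤ C₀ / Real.log M →
      ∀ R₁ R₂ : Finset (PrI K), R₁ ⊆ PM K M → R₂ ⊆ PM K M → Disjoint R₁ R₂ → R₁.Nonempty →
      ‖QF K M a b (a + b) R₁ R₂‖ ≤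
        CQ * 2 ^ (R₁.card + R₂.card) * (1 + Real.log (nS np R₁)) / Real.log M ^ 2)
    (hCQ : 1 ≤ CQ) (hCE : ∀ z : ℂ, ‖z‖ ≤ 1 → ‖E (1 + z)‖ ≤ CE) (hc : 0 < c) (hC₀ : 0 < C₀)
    (hδ₀ : 0 < δ₀) (hC₁ : 0 < C₁)
    (hg : g = CG * 3 ^ BG * Real.exp 1) (he₂ : e₂ = δ₀ / 8) (hB : B = BG * (2 * n : ℕ) + BS)
    (hX₁ : X₁ = Real.exp (C₀ * (2 * C₁ + 1)))
    {L A M w : ℝ} (hL : L = Real.log M) (hM2 : 2 ≤ M) (hL1 : 1 ≤ L)
    (hCa : C₀ / L ≤ 1 / 16) (hA1 : M ^ (1 + δ₀) ≤ A) (hA2 : A ≤ M ^ C₁)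
    {α β : ℂ} (u : ℝ) (hα : ‖α‖ ≤ C₀ / L) (hβ : ‖β‖ ≤ C₀ / L)
    (hω : c / L ≤ ‖α + β‖) {R₁ R₂ : Finset (PrI K)} {δ : ℝ} (hδ : δ ≤ δ₀)
    (hδ2 : δ ≤ 1) (hw1 : 1 ≤ w) (hwδ : w ≤ M ^ δ)
    (hR1 : R₁ ⊆ PM K M) (hR2 : R₂ ⊆ PM K M) (hd : Disjoint R₁ R₂) (hne : R₁.Nonempty)
    (hlX : Real.log (nS np R₁) ≤ Real.log w) :
    ‖∑ S ∈ DM K M, ∑ T ∈ DM K M, Wr M α β R₁ R₂ S T *
          Sn (K := K) ⊤ (1 / 2 + α + u * I) (1 / 2 + β - u * I) (Yr A w R₁ R₂ S T)‖ ≤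
      (1 / c * (|CE| + rho K * (g ^ 2) ^ n * Real.exp 1 * X₁) * CQ +
        CS * Real.exp (6 * C₀) * |CU| ^ 3 *
          ((1 : ℝ) ^ (-(1 / 4) : ℝ) / c + (1 : ℝ) ^ (2 * (1 : ℝ))) * (1 + 5 / e₂) ^ 5) / L *
        (1 + |u|) ^ B * (2 ^ (R₁.card + R₂.card) * (1 + Real.log w)) := by
  have hrho : 0 ≤ rho K := (dedekindZeta_residue_pos K).le
  have he₂0 : 0 < e₂ := by rw [he₂]; positivity
  have hg0 : 0 < g := by rw [hg]; positivity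
  have hX₁0 : 0 < X₁ := by rw [hX₁]; positivity
  have hM1 : 1 ≤ M := by linarith
  have hM0 : 0 < M := by linarith
  have hL0 : 0 < L := by linarith
  have hα16 : ‖α‖ ≤ 1 / 16 := hα.trans hCa
  have hβ16 : ‖β‖ ≤ 1 / 16 := hβ.trans hCa
  have hω0 : 0 < ‖α + β‖ := lt_of_lt_of_le (by positivity) hω
  have hωne : α + β ≠ 0 := norm_pos_iff.1 hω0
  have hω8 : ‖α + β‖ ≤ 1 / 8 := (norm_add_le _ _).trans (by linarith)
  have hωC : ‖α + β‖ ≤ 2 * (C₀ / L) := (norm_add_le _ _).trans (by linarith)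
  have hκ : ∀ z : ℂ, ‖z‖ ≤ C₀ / L → ‖z‖ * Real.log M ≤ C₀ := by
    intro z hz
    rw [← hL]
    calc ‖z‖ * L ≤ C₀ / L * L := mul_le_mul_of_nonneg_right hz hL0.le
      _ = C₀ := div_mul_cancel₀ _ hL0.ne'
  have hA1' : 1 ≤ A := le_trans (Real.one_le_rpow hM1 (by linarith)) hA1
  have hA0 : 0 < A := by linarith
  have hw0 : 0 < w := by linarith
  have hwM : w ≤ M := by
    refine hwδ.trans ?_
    conv_rhs => rw [← Real.rpow_one M]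
    exact Real.rpow_le_rpow_of_exponent_le hM1 hδ2
  obtain ⟨P2, hP2⟩ : ∃ P2 : ℝ, P2 = 2 ^ (R₁.card + R₂.card) := ⟨_, rfl⟩
  have hP20 : 0 < P2 := by rw [hP2]; positivity
  have f1 := dez_form hQ hCQ hM2 hL0 hL hR1 hR2 hd hne hP2 hlX hα hβ
  have f2 := dez_form hQ hCQ hM2 hL0 hL hR1 hR2 hd hne hP2 hlX
    (half_bd ((norm_sub_le α β).trans (by linarith)) : ‖(α - β) / 2‖ ≤ C₀ / L)
    (half_bd ((norm_sub_le β α).trans (by linarith)) : ‖(β - α) / 2‖ ≤ C₀ / L)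
  have f3 : ‖E (1 + (α + β))‖ ≤ |CE| := (hCE _ (by linarith)).trans (le_abs_self _)
  have f4 := Gq_pow hCG hBG hBS hG hg (n := n) hB hα16 hβ16 u
  have f5 := exp_bd hω8
  have f6 : ‖((A ^ 2 / w : ℝ) : ℂ) ^ (-((α + β) / 2))‖ ≤ X₁ := by
    rw [hX₁]
    exact dez_cpow hM2 hL hw1 hwM hδ₀ hC₁ hC₀ hA1 hA2 (by rw [norm_neg]; exact half_bd hωC)
  have hB0 : 0 ≤ B := by rw [hB]; positivity
  have hu1 : 1 ≤ (1 + |u|) ^ B := Real.one_le_rpow (by linarith [abs_nonneg u]) hB0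
  have k := hside A M C₀ w α β u R₁ R₂ hA0 hM1 hw1 hα16 hβ16 hωne (hκ α hα) (hκ β hβ) hd
  have m := main_bd (c := c) (L := L) hc hL0 hω hrho (pow_nonneg (sq_nonneg g) n) hX₁0.le hu1
    f3 f1 f4 f5 f6 f2
  rw [hn] at m
  have hWS : (1 + |u|) ^ BS ≤ (1 + |u|) ^ B := by
    refine Real.rpow_le_rpow_of_exponent_le (by linarith [abs_nonneg u]) ?_
    rw [hB]
    have : 0 ≤ BG * (2 * n : ℕ) := by positivity
    linarith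
  have u1 : GS np (PM K M) M ≤ |CU| * (1 + L) := by
    refine (hGU _ hM1).trans ?_
    rw [← hL]
    exact mul_le_mul_of_nonneg_right (le_abs_self _) (by linarith)
  have x1 : (A ^ 2 / (M ^ 2 * w)) ^ (-(1 / 8) : ℝ) ≤
      (1 : ℝ) ^ (-(1 / 4) : ℝ) * M ^ (-e₂) := by
    rw [Real.one_rpow, one_mul, he₂]
    exact dez_size hM2 hA1 hw0 hδ hwδ
  have x2 : (0 : ℝ) ≤ (1 : ℝ) ^ (2 * (1 : ℝ)) * M ^ (-e₂) := by positivity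
  have r := err_bd (κ := 6 * C₀) (P2 := P2) (w := w) hM1 hL hL1 hc one_pos he₂0 hω0 hω
    (GS_nonneg (K := K) M) u1 (by positivity) le_rfl x1 x2 hWS (by positivity)
    (by positivity) hCS hP20 hw1
  rw [add_zero] at r
  rw [← hP2] at k ⊢
  have k' := k.trans r
  obtain ⟨Sm, hSm⟩ : ∃ Sm, Sm = ∑ S ∈ DM K M, ∑ T ∈ DM K M, Wr M α β R₁ R₂ S T *
          Sn (K := K) ⊤ (1 / 2 + α + u * I) (1 / 2 + β - u * I) (Yr A w R₁ R₂ S T) := ⟨_, rfl⟩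
  rw [← hSm] at k' ⊢
  obtain ⟨Mn, hMn⟩ : ∃ Mn, Mn = 1 / (α + β) * (E (1 + (α + β)) * QF K M α β (α + β) R₁ R₂ -
          (rho K : ℂ) * Gq (1 / 2 + α + u * I) (1 / 2 + β - u * I) (-((α + β) / 2)) ^
            nrComplexPlaces K * cexp ((α + β) ^ 2 / 2) *
            (((A ^ 2 / w : ℝ) : ℂ) ^ (-((α + β) / 2)) *
              QF K M ((α - β) / 2) ((β - α) / 2) ((α - β) / 2 + (β - α) / 2) R₁ R₂)) :=
    ⟨_, rfl⟩
  rw [← hMn] at k' m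
  rw [← hn] at m
  have e : Sm = (Sm - Mn) + Mn := by ring
  rw [e]
  refine (norm_add_le _ _).trans ((add_le_add k' m).trans (le_of_eq ?_))
  obtain ⟨Z1, hZ1⟩ : ∃ Z1, Z1 = CS * Real.exp (6 * C₀) * |CU| ^ 3 *
      ((1 : ℝ) ^ (-(1 / 4) : ℝ) / c + (1 : ℝ) ^ (2 * (1 : ℝ))) * (1 + 5 / e₂) ^ 5 := ⟨_, rfl⟩
  obtain ⟨Z2, hZ2⟩ : ∃ Z2, Z2 = |CE| + rho K * (g ^ 2) ^ n * Real.exp 1 * X₁ := ⟨_, rfl⟩
  rw [← hZ1, ← hZ2]
  field_simp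
  ring

theorem pf_DEz_aux (h1 : Pool.Agent.H31.CRG.T_QFB) (h2 : Pool.Agent.H65.CRZ.T_G1)
    (h3 : Pool.Agent.H65.CRG.T_SA) : Pool.Agent.H20.SM.T_DEz := by
  intro K _ _ _ δ₀ C₁ c C₀ hδ₀ hC₁ hc hC₀
  obtain ⟨n, hn⟩ : ∃ n, n = nrComplexPlaces K := ⟨_, rfl⟩
  obtain ⟨E, hE⟩ := a_ZK K
  have hE' : IsE K E := hE
  obtain ⟨CS, BS, hCS, hBS, hside⟩ := dez_side h3 E hE'
  obtain ⟨CG, BG, hCG, hBG, hG⟩ := h2 1
  obtain ⟨CU, -, hGU, -⟩ := a_GU K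
  obtain ⟨CQ, hCQ, hQ⟩ := h1 K C₀ hC₀
  obtain ⟨CE, hCE⟩ := (isCompact_closedBall (1 : ℂ) 1).exists_bound_of_continuousOn
    hE'.1.continuous.continuousOn
  have hCE' : ∀ z : ℂ, ‖z‖ ≤ 1 → ‖E (1 + z)‖ ≤ CE := by
    intro z hz
    refine hCE _ ?_
    rw [Metric.mem_closedBall, dist_eq_norm, add_sub_cancel_left]
    exact hz
  have hrho : 0 ≤ rho K := (dedekindZeta_residue_pos K).le
  obtain ⟨X₁, hX₁⟩ : ∃ X₁, X₁ = Real.exp (C₀ * (2 * C₁ + 1)) := ⟨_, rfl⟩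
  have hX₁0 : 0 < X₁ := by rw [hX₁]; positivity
  obtain ⟨e₂, he₂⟩ : ∃ e₂, e₂ = δ₀ / 8 := ⟨_, rfl⟩
  have he₂0 : 0 < e₂ := by rw [he₂]; positivity
  obtain ⟨δ, hδ⟩ : ∃ δ, δ = min δ₀ 1 := ⟨_, rfl⟩
  have hδ0 : 0 < δ := by rw [hδ]; exact lt_min hδ₀ one_pos
  have hδ1 : δ ≤ δ₀ := by rw [hδ]; exact min_le_left _ _
  have hδ2 : δ ≤ 1 := by rw [hδ]; exact min_le_right _ _
  obtain ⟨g, hg⟩ : ∃ g, g = CG * 3 ^ BG * Real.exp 1 := ⟨_, rfl⟩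
  have hg0 : 0 < g := by rw [hg]; positivity
  obtain ⟨B, hB⟩ : ∃ B, B = BG * (2 * n : ℕ) + BS := ⟨_, rfl⟩
  have hB0 : 0 ≤ B := by rw [hB]; positivity
  obtain ⟨Z, hZ⟩ : ∃ Z, Z = 1 / c * (|CE| + rho K * (g ^ 2) ^ n * Real.exp 1 * X₁) * CQ +
      CS * Real.exp (6 * C₀) * |CU| ^ 3 *
        ((1 : ℝ) ^ (-(1 / 4) : ℝ) / c + (1 : ℝ) ^ (2 * (1 : ℝ))) * (1 + 5 / e₂) ^ 5 := ⟨_, rfl⟩
  have hZ0 : 0 ≤ Z := by rw [hZ]; positivity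
  refine ⟨δ, Real.exp C₀ * Real.exp C₀ * Z + 1, B, Real.exp (max 1 (16 * C₀)) + 2, hδ0,
    by positivity, hB0, ?_⟩
  intro M A hM hA1 hA2 α β u hα hβ hω J₁ J₂ hJ1 hJ2 hJ1' hJ2' hJJ hsm
  have hM2 : 2 ≤ M := by linarith [Real.exp_pos (max 1 (16 * C₀))]
  have hM0 : 0 < M := by linarith
  have hM1 : 1 ≤ M := by linarith
  obtain ⟨L, hL⟩ : ∃ L, L = Real.log M := ⟨_, rfl⟩
  have hLm : max 1 (16 * C₀) ≤ L := by
    rw [hL, Real.le_log_iff_exp_le hM0]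
    linarith
  rw [← hL] at hα hβ hω ⊢
  have hL1 : 1 ≤ L := (le_max_left _ _).trans hLm
  have hL0 : 0 < L := by linarith
  have hLC : 16 * C₀ ≤ L := (le_max_right _ _).trans hLm
  have hCa : C₀ / L ≤ 1 / 16 := by
    rw [div_le_iff₀ hL0]
    linarith
  -- the relation
  have hX1 := Pool.Agent.H96.CV.one_le_nm hJ1
  have hY1 := Pool.Agent.H96.CV.one_le_nm hJ2
  obtain ⟨w, hw⟩ : ∃ w, w = nm J₁ * nm J₂ := ⟨_, rfl⟩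
  have hw1 : 1 ≤ w := by rw [hw]; exact one_le_mul_of_one_le_of_one_le hX1 hY1
  have hw0 : 0 < w := by linarith
  rw [← hw] at hsm
  have hwM : w ≤ M := by
    refine hsm.trans ?_
    conv_rhs => rw [← Real.rpow_one M]
    exact Real.rpow_le_rpow_of_exponent_le hM1 hδ2
  have hXw : nm J₁ ≤ w := by rw [hw]; exact le_mul_of_one_le_right (by linarith) hY1
  have hYw : nm J₂ ≤ w := by rw [hw]; exact le_mul_of_one_le_left (by linarith) hX1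
  have hR1 : pf J₁ ⊆ PM K M := pf_sub hJ1 (hXw.trans hwM)
  have hR2 : pf J₂ ⊆ PM K M := pf_sub hJ2 (hYw.trans hwM)
  have hdis : Disjoint (pf J₁) (pf J₂) := by
    classical
    exact ((a_GC K ∅ ∅).2 J₁ J₂ hJ1 hJ2 hJJ).1
  have hne1 := Pool.Agent.H96.CV.pf_nonempty hJ1 hJ1'
  have hlX : Real.log (nS np (pf J₁)) ≤ Real.log w :=
    Real.log_le_log (by linarith [one_le_nS (pf J₁)])
      ((Pool.Agent.H81.CV.nS_pf hJ1).trans hXw)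
  have k := dez_core hn hside hCS hBS hCG hBG hG hGU hQ hCQ hCE' hc hC₀ hδ₀ hC₁ hg he₂ hB hX₁
    hL hM2 hL1 hCa hA1 hA2 u hα hβ hω hδ1 hδ2 hw1 hsm hR1 hR2 hdis hne1 hlX
  rw [← hZ] at k
  rw [Dn_eq (⊤ : Ideal (𝓞 K)) (A := A) hM1 α β u J₁ J₂ hdis, norm_mul, norm_mul]
  rw [← hw]
  have t1 : ‖((nm J₁ : ℝ) : ℂ) ^ (-(1 / 2 + α + u * I))‖ ≤
      nm J₁ ^ (-(1 / 2) : ℝ) * Real.exp C₀ :=
    cpow_nm hX1 (hXw.trans hwM) hC₀ hL hL0 hα (re1 α u)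
  have t2 : ‖((nm J₂ : ℝ) : ℂ) ^ (-(1 / 2 + β - u * I))‖ ≤
      nm J₂ ^ (-(1 / 2) : ℝ) * Real.exp C₀ :=
    cpow_nm hY1 (hYw.trans hwM) hC₀ hL hL0 hβ (re2 β u)
  have hX0 : 0 < nm J₁ := by linarith
  have hY0 : 0 < nm J₂ := by linarith
  have hlw : 0 ≤ Real.log w := Real.log_nonneg hw1
  have hwt : Pool.Agent.H20.SM.wt (J₁, J₂) =
      2 ^ ((pf J₁).card + (pf J₂).card) * (nm J₁ * nm J₂) ^ (-(1 / 2) : ℝ) := rfl
  rw [hwt, ← hw]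
  calc ‖((nm J₁ : ℝ) : ℂ) ^ (-(1 / 2 + α + u * I))‖ *
        ‖((nm J₂ : ℝ) : ℂ) ^ (-(1 / 2 + β - u * I))‖ * _ ≤
      (nm J₁ ^ (-(1 / 2) : ℝ) * Real.exp C₀) * (nm J₂ ^ (-(1 / 2) : ℝ) * Real.exp C₀) *
        (Z / L * (1 + |u|) ^ B *
          (2 ^ ((pf J₁).card + (pf J₂).card) * (1 + Real.log w))) := by
        refine mul_le_mul (mul_le_mul t1 t2 (norm_nonneg _) (by positivity)) k (norm_nonneg _)
          (by positivity)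
    _ = (Real.exp C₀ * Real.exp C₀ * Z) / L * (1 + |u|) ^ B *
        (2 ^ ((pf J₁).card + (pf J₂).card) * w ^ (-(1 / 2) : ℝ)) * (1 + Real.log w) := by
        rw [hw, Real.mul_rpow hX0.le hY0.le]
        ring
    _ ≤ _ := by
        have hu : 0 < (1 + |u|) ^ B := by positivity
        have hh : (Real.exp C₀ * Real.exp C₀ * Z) / L ≤ (Real.exp C₀ * Real.exp C₀ * Z + 1) / L :=
          div_le_div_of_nonneg_right (by linarith) hL0.le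
        refine mul_le_mul_of_nonneg_right ?_ (by linarith)
        refine mul_le_mul_of_nonneg_right ?_ (by positivity)
        exact mul_le_mul_of_nonneg_right hh hu.le

theorem pf_DEz : Pool.Agent.H20.SM.T_DEz :=
  pf_DEz_aux
    (Pool.Agent.H14.CRG.pf_QFB (Pool.Agent.H14.CRG.pf_S2R Pool.Agent.H33.CRG.pf_S1R)
      (Pool.Agent.H48.CRG.pf_UB Pool.Agent.H65.CRG.Base.c_EB))
    Pool.Agent.H65.CRG.Base.c_G1
    (Pool.Agent.H26.CRG.pf_SA Pool.Agent.H65.CRG.Base.c_G1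
      (Pool.Agent.H36.CRG.pf_VG Pool.Agent.H65.CRG.Base.c_G1))

end Pool.Agent.H46.SM
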