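import Pool.Agent.H20.SM.Targets
import Pool.Agent.H37.CV.IE
import Pool.Agent.H3.CV.GC

/-!
# Primitive characters by inclusion and exclusion, squarefree moduli (row IEq; MP_347b49_nt)
-/

set_option autoImplicit false

open NumberField NumberField.InfinitePlace Complex Filter Topology MeasureTheory

namespace Pool.Agent.H46.SM

open Pool.Agent.H28.RC Pool.Agent.H25.HK Pool.Agent.H37.CV Pool.Agent.H20.SM

section

variable {K : Type} [Field K] [NumberField K]

/-- the trivial modulus -/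
theorem ieq_bij_top [IsTotallyComplex K] {m : Ideal (𝓞 K)} (hm : m = ⊤) :
    Set.BijOn (fun χ : RCC K => χ.ψ) (Pr K m) (Ch m m) := by
  refine ⟨?_, ?_, ?_⟩
  · intro χ hχ
    have hf : χ.f = m := hχ
    have h1 : PC m χ.ψ := by rw [← hf]; exact RCC_PC χ
    refine ⟨h1, fun a b ha hb _ _ _ => ?_⟩
    change χ.ψ (Ideal.span {a}) = χ.ψ (Ideal.span {b})
    rw [h1.ray a ha (by rw [hm]; trivial) fun v => (RP_empty.false v).elim,
      h1.ray b hb (by rw [hm]; trivial) fun v => (RP_empty.false v).elim]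
  · intro χ hχ χ' hχ' h
    have hf : χ.f = m := hχ
    have hf' : χ'.f = m := hχ'
    have : IsEmpty (RP K) := RP_empty
    obtain ⟨f, S, ψ, _, _, _, _, _, _, _, _⟩ := χ
    obtain ⟨f', S', ψ', _, _, _, _, _, _, _, _⟩ := χ'
    simp only at h hf hf'
    subst h hf hf'
    have : S = S' := Subsingleton.elim _ _
    subst this
    rfl
  · rintro ψ ⟨h1, -⟩
    refine ⟨⟨m, ∅, ψ, h1.ne, h1.one, h1.mul, h1.bot, h1.norm, h1.zero, ?_, ?_⟩, rfl, rfl⟩
    · intro a ha ham
      rw [Pool.Agent.H37.CV.sg_one]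
      exact h1.ray a ha ham fun v => (RP_empty.false v).elim
    · intro P hP hmP
      rw [hm] at hmP
      exact absurd (top_le_iff.1 hmP) hP.ne_top

open scoped Classical in
/-- the greatest common divisor of two squarefree divisors -/
theorem ieq_sup (m : Ideal (𝓞 K)) (h1 : ∀ d : Ideal (𝓞 K), m ≤ d → d = idS (pf d))
    (h2 : ∀ S : Finset (PrI K), S ⊆ pf m → m ≤ idS S ∧ pf (idS S) = S)
    (A B : Finset (PrI K)) (hA : A ⊆ pf m) (hB : B ⊆ pf m) :
    idS A ⊔ idS B = idS (A ∩ B) := by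
  have hle : m ≤ idS A ⊔ idS B := le_trans (h2 A hA).1 le_sup_left
  have hne : idS A ⊔ idS B ≠ ⊥ := by
    intro h
    have h3 : idS A ≤ ⊥ := by rw [← h]; exact le_sup_left
    exact Pool.Agent.H3.CV.idS_ne A (le_bot_iff.1 h3)
  rw [h1 _ hle]
  congr 1
  ext P
  rw [Pool.Agent.H3.CV.mem_pf hne, sup_le_iff,
    ← Pool.Agent.H3.CV.mem_pf (Pool.Agent.H3.CV.idS_ne A),
    ← Pool.Agent.H3.CV.mem_pf (Pool.Agent.H3.CV.idS_ne B), (h2 A hA).2, (h2 B hB).2,
    Finset.mem_inter]

theorem ieq_idS_le {A B : Finset (PrI K)} (h : B ⊆ A) : idS A ≤ idS B :=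
  Ideal.dvd_iff_le.1 (Finset.prod_dvd_prod_of_subset _ _ _ h)

open scoped Classical in
theorem ieq_Ch {m : Ideal (𝓞 K)} (hm : m ≠ ⊥) (hmt : m ≠ ⊤)
    (h1 : ∀ d : Ideal (𝓞 K), m ≤ d → d = idS (pf d))
    (h2 : ∀ S : Finset (PrI K), S ⊆ pf m → m ≤ idS S ∧ pf (idS S) = S)
    (s : Finset (PrI K)) (ψ : Ideal (𝓞 K) → ℂ) (hψ : ψ ∈ Ch m m) :
    (∀ P ∈ s, ψ ∈ Ch m (idS ((pf m).erase P))) ↔ ψ ∈ Ch m (idS (pf m \ s)) := by
  constructor
  · intro h
    induction s using Finset.induction_on with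
    | empty => rw [Finset.sdiff_empty, ← h1 m le_rfl]; exact hψ
    | insert P s hP ih =>
      have h3 : pf m \ insert P s = (pf m).erase P ∩ (pf m \ s) := by
        ext Q
        simp only [Finset.mem_sdiff, Finset.mem_insert, Finset.mem_inter, Finset.mem_erase]
        tauto
      rw [h3, ← ieq_sup m h1 h2 _ _ (Finset.erase_subset _ _) Finset.sdiff_subset]
      refine Ch_inf hm hmt (h2 _ (Finset.erase_subset _ _)).1 (h2 _ Finset.sdiff_subset).1
        (h P (Finset.mem_insert_self P s)) ?_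
      exact ih fun Q hQ => h Q (Finset.mem_insert_of_mem hQ)
  · intro h P hP
    refine Ch_mono (ieq_idS_le ?_) h
    intro Q hQ
    obtain ⟨hQ1, hQ2⟩ := Finset.mem_sdiff.1 hQ
    refine Finset.mem_erase.2 ⟨?_, hQ1⟩
    rintro rfl
    exact hQ2 hP

open scoped Classical in
theorem ieq_cof {m : Ideal (𝓞 K)} (hself : m = idS (pf m)) (P : PrI K) (hP : P ∈ pf m)
    (hmP : m ≤ P.1) : cof m P.1 = idS ((pf m).erase P) := by
  have h1 := cof_spec hmP
  have h2 : m = P.1 * idS ((pf m).erase P) := by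
    have h3 : P.1 * idS ((pf m).erase P) = idS (pf m) := Finset.mul_prod_erase _ _ hP
    rw [h3]
    exact hself
  have h4 : P.1 * cof m P.1 = P.1 * idS ((pf m).erase P) := h1.symm.trans h2
  exact mul_left_cancel₀ P.2.2 h4

end

open scoped Classical in
theorem pf_IEq (hCRT : T_CRT) : T_IEq := by
  intro F _ _ _ _ q hq
  obtain ⟨hA, hB, hC, hD, -, -⟩ := hCRT F q hq
  obtain ⟨m, hmdef⟩ : ∃ m, m = qi F q := ⟨_, rfl⟩
  rw [← hmdef] at hA hB hC hD ⊢
  have hq0 : q ≠ 0 := hq.1.ne_zero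
  have hm : m ≠ ⊥ := by
    rw [hmdef, qi, Ne, Ideal.span_singleton_eq_bot]
    exact_mod_cast hq0
  have hUf : (Ch m m).Finite := (pf_OR F m m hm le_rfl).1
  by_cases hmt : m = ⊤
  · have hbij := ieq_bij_top (K := F) hmt
    refine ⟨?_, {m}, fun _ => 1, Finset.mem_singleton_self m, rfl, ?_, ?_, ?_⟩
    · refine Set.Finite.of_finite_image ?_ hbij.injOn
      rw [hbij.image_eq]
      exact hUf
    · intro d hd
      rw [Finset.mem_singleton] at hd
      subst hd
      exact ⟨le_rfl, by norm_num, fun h => absurd rfl h⟩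
    · intro R
      refine (Finset.card_filter_le _ _).trans ?_
      rw [Finset.card_singleton]
      exact Nat.one_le_two_pow
    · intro f
      rw [Finset.sum_singleton, Int.cast_one, one_mul,
        finsum_mem_eq_of_bijOn (fun χ : RCC F => χ.ψ) hbij (g := f) (fun χ _ => rfl)]
  have h1 : ∀ d : Ideal (𝓞 F), m ≤ d → d = idS (pf d) := fun d hd => (hA d hd).1
  have h2 : ∀ S : Finset (PrI F), S ⊆ pf m → m ≤ idS S ∧ pf (idS S) = S := hB
  have hself : m = idS (pf m) := h1 m le_rfl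
  have hmem : ∀ P : PrI F, P ∈ pf m ↔ m ≤ P.1 := Pool.Agent.H3.CV.mem_pf hm
  have hbij := bij_Pr hm hmt
  have hTf : {ψ | ψ ∈ Ch m m ∧ ∀ P : Ideal (𝓞 F), P.IsPrime → m ≤ P →
      ψ ∉ Ch m (cof m P)}.Finite := hUf.subset fun ψ h => h.1
  have hPf : (Pr F m).Finite := by
    refine Set.Finite.of_finite_image ?_ hbij.injOn
    rw [hbij.image_eq]
    exact hTf
  set E : Finset (PrI F) → Ideal (𝓞 F) := fun s => idS (pf m \ s) with hE
  have hEpf : ∀ s, pf (E s) = pf m \ s := fun s => (h2 _ Finset.sdiff_subset).2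
  have hEm : ∀ s, m ≤ E s := fun s => (h2 _ Finset.sdiff_subset).1
  have hEinj : ∀ s ∈ (pf m).powerset, ∀ t ∈ (pf m).powerset, E s = E t → s = t := by
    intro s hs t ht hst
    rw [Finset.mem_powerset] at hs ht
    have h3 : pf m \ s = pf m \ t := by rw [← hEpf s, ← hEpf t, hst]
    rw [← Finset.sdiff_sdiff_eq_self hs, h3, Finset.sdiff_sdiff_eq_self ht]
  -- the primes over the missing ones
  have hmiss : ∀ s P, P ∈ pf m → P ∈ s → ∀ p ∈ q.primeFactors, (p : 𝓞 F) ∈ P.1 →
      p ∈ Pd q (E s) := by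
    intro s P hPm hPs p hp hpP
    rw [Pd, Finset.mem_filter]
    refine ⟨hp, fun hle => ?_⟩
    have h3 : E s ≤ P.1 := hle.trans ((Ideal.span_singleton_le_iff_mem _).2 hpP)
    have h4 : P ∈ pf (E s) :=
      (Pool.Agent.H3.CV.mem_pf (Pool.Agent.H3.CV.idS_ne _) P).2 h3
    rw [hEpf s, Finset.mem_sdiff] at h4
    exact h4.2 hPs
  refine ⟨hPf, (pf m).powerset.image E, fun d => (-1) ^ (pf m \ pf d).card, ?_, ?_, ?_, ?_, ?_⟩
  · rw [Finset.mem_image]
    refine ⟨∅, Finset.empty_mem_powerset _, ?_⟩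
    rw [hE]
    simp only [Finset.sdiff_empty]
    exact hself.symm
  · simp only [Finset.sdiff_self, Finset.card_empty, pow_zero]
  · intro d hd
    rw [Finset.mem_image] at hd
    obtain ⟨s, hs, rfl⟩ := hd
    rw [Finset.mem_powerset] at hs
    refine ⟨hEm s, ?_, ?_⟩
    · rw [abs_pow, abs_neg, abs_one, one_pow]
    · intro hne
      have hsne : s.Nonempty := by
        rw [Finset.nonempty_iff_ne_empty]
        rintro rfl
        apply hne
        rw [hE]
        simp only [Finset.sdiff_empty]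
        exact hself.symm
      obtain ⟨P, hP⟩ := hsne
      obtain ⟨p, hp, hpP⟩ := (hC P).1 (hs hP)
      exact ⟨p, hmiss s P (hs hP) hP p hp hpP⟩
  · intro R
    by_cases hR : R ⊆ q.primeFactors
    · have h3 : ((pf m).powerset.image E).filter (fun d => Pd q d = R) ⊆
          ((pf m).filter fun P => ∃ p ∈ R, (p : 𝓞 F) ∈ P.1).powerset.image E := by
        intro d hd
        rw [Finset.mem_filter, Finset.mem_image] at hd
        obtain ⟨⟨s, hs, rfl⟩, hdR⟩ := hd
        rw [Finset.mem_powerset] at hs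
        refine Finset.mem_image_of_mem E (Finset.mem_powerset.2 fun P hP => ?_)
        obtain ⟨p, hp, hpP⟩ := (hC P).1 (hs hP)
        refine Finset.mem_filter.2 ⟨hs hP, p, ?_, hpP⟩
        rw [← hdR]
        exact hmiss s P (hs hP) hP p hp hpP
      refine (Finset.card_le_card h3).trans (Finset.card_image_le.trans ?_)
      rw [Finset.card_powerset]
      apply Nat.pow_le_pow_right (by norm_num)
      have h4 : ((pf m).filter fun P => ∃ p ∈ R, (p : 𝓞 F) ∈ P.1) ⊆
          R.biUnion fun p => (pf m).filter fun P => (p : 𝓞 F) ∈ P.1 := by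
        intro P hP
        rw [Finset.mem_filter] at hP
        obtain ⟨hPm, p, hp, hpP⟩ := hP
        exact Finset.mem_biUnion.2 ⟨p, hp, Finset.mem_filter.2 ⟨hPm, hpP⟩⟩
      refine (Finset.card_le_card h4).trans (Finset.card_biUnion_le.trans ?_)
      rw [Finset.sum_congr rfl fun p hp => hD p (hR hp), Finset.sum_const, smul_eq_mul, mul_comm]
    · have h3 : ((pf m).powerset.image E).filter (fun d => Pd q d = R) = ∅ := by
        rw [Finset.filter_eq_empty_iff]
        intro d _ hdR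
        apply hR
        rw [← hdR]
        exact Finset.filter_subset _ _
      rw [h3, Finset.card_empty]
      exact Nat.zero_le _
  · intro f
    have hsumf : ∀ s ∈ (pf m).powerset, (∑ᶠ ψ ∈ Ch m (E s), f ψ) =
        ∑ ψ ∈ hUf.toFinset.filter (fun ψ => ∀ P ∈ s, ψ ∈ Ch m (idS ((pf m).erase P))), f ψ := by
      intro s hs
      have h3 : (hUf.subset (Ch_mono (hEm s))).toFinset =
          hUf.toFinset.filter (fun ψ => ∀ P ∈ s, ψ ∈ Ch m (idS ((pf m).erase P))) := by
        ext ψ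
        rw [Set.Finite.mem_toFinset, Finset.mem_filter, Set.Finite.mem_toFinset]
        constructor
        · intro h
          have h4 : ψ ∈ Ch m m := Ch_mono (hEm s) h
          exact ⟨h4, (ieq_Ch hm hmt h1 h2 s ψ h4).2 h⟩
        · rintro ⟨h, h4⟩
          exact (ieq_Ch hm hmt h1 h2 s ψ h).1 h4
      rw [finsum_mem_eq_finite_toFinset_sum _ (hUf.subset (Ch_mono (hEm s))), h3]
    have h0 : (∑ᶠ χ ∈ Pr F m, f χ.ψ) =
        ∑ ψ ∈ hUf.toFinset.filter (fun ψ => ∀ P ∈ pf m,
          ¬ ψ ∈ Ch m (idS ((pf m).erase P))), f ψ := by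
      rw [finsum_mem_eq_of_bijOn (fun χ : RCC F => χ.ψ) hbij (g := f) (fun χ _ => rfl),
        finsum_mem_eq_finite_toFinset_sum _ hTf]
      refine Finset.sum_congr ?_ fun _ _ => rfl
      ext ψ
      rw [Set.Finite.mem_toFinset, Finset.mem_filter, Set.Finite.mem_toFinset]
      constructor
      · rintro ⟨h3, h4⟩
        refine ⟨h3, fun P hP => ?_⟩
        rw [← ieq_cof hself P hP ((hmem P).1 hP)]
        exact h4 P.1 P.2.1 ((hmem P).1 hP)
      · rintro ⟨h3, h4⟩
        refine ⟨h3, fun P hP hmP => ?_⟩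
        have hPb : P ≠ ⊥ := by
          rintro rfl
          exact hm (le_bot_iff.1 hmP)
        have hPm : (⟨P, hP, hPb⟩ : PrI F) ∈ pf m := (hmem _).2 hmP
        have h5 := h4 ⟨P, hP, hPb⟩ hPm
        rwa [← ieq_cof hself ⟨P, hP, hPb⟩ hPm hmP] at h5
    rw [h0, incl_excl hUf.toFinset (pf m) (fun P ψ => ψ ∈ Ch m (idS ((pf m).erase P))) f,
      Finset.sum_image hEinj]
    refine Finset.sum_congr rfl fun s hs => ?_
    have h3 : (pf m \ pf (E s)).card = s.card := by
      rw [hEpf s, Finset.sdiff_sdiff_eq_self (Finset.mem_powerset.1 hs)]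
    rw [← hsumf s hs]
    change _ = (((-1 : ℤ) ^ (pf m \ pf (E s)).card : ℤ) : ℂ) * _
    rw [h3]
    push_cast
    rfl

end Pool.Agent.H46.SM
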