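import Pool.Agent.H20.SM.TW
import Pool.Agent.H37.SM.SMq
import Pool.Agent.H81.CRG.SE

/-!
# The second moment of the primitive characters, the mollifier moved to the right
(row SEw of the board `sm_modules`; MP_347b49_nt)
-/

set_option autoImplicit false

open NumberField NumberField.InfinitePlace Complex Filter Topology MeasureTheory

namespace Pool.Agent.H46.SM

open Pool.Agent.H28.RC Pool.Agent.H25.HK Pool.Agent.H37.CV Pool.Agent.H20.SM
open Pool.Agent.H65.CRZ Pool.Agent.H65.CRG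

/-- the coefficients of the mollifier -/
theorem sew_norm {K : Type} [Field K] [NumberField K] {M γ : ℝ} (hM : 1 ≤ M) (hγ : 0 ≤ γ)
    (u : ℝ) (S : Finset (PrI K)) : ‖cg K M γ u S‖ ≤ nS np S ^ (-(1 / 2) : ℝ) := by
  have h1 : 0 < nS np S := Pool.Agent.H96.CV.nS_pos S
  have h0 : 1 ≤ nS np S := Pool.Agent.H94.CV.F1.one_le_nS S
  unfold cg
  rw [norm_mul, Complex.norm_real, Real.norm_eq_abs, Complex.norm_cpow_eq_rpow_re_of_pos h1]
  have h2 : (-(1 / 2 + (γ : ℂ) + (u : ℂ) * I)).re = -(1 / 2) - γ := by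
    simp
    ring
  rw [h2]
  have h3 := mul_le_mul_of_nonneg_right (Pool.Agent.H81.CRG.abs_xw_le hM S)
    (Real.rpow_nonneg h1.le (-(1 / 2) - γ))
  rw [one_mul] at h3
  exact h3.trans (Real.rpow_le_rpow_of_exponent_le h0 (by linarith))

open Pool.Agent.H37.SM.SMq in
open scoped Classical in
theorem pf_SEw (hIE : T_IEq) (hSND : T_SND) (hNCR : T_NCR) (hPAR : T_PAR) (hOP : T_OPz)
    (hSRq : T_SRqw) (hSRd : T_SRdw) (hRS : T_RSz) (hCQ : T_CQz) : T_SEw := by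
  intro F _ _ _ _
  set n : ℕ := Module.finrank ℚ F with hn
  have hn1 : 1 ≤ n := by
    have : 0 < Module.finrank ℚ F := Module.finrank_pos
    omega
  have hnr : (1 : ℝ) ≤ n := by exact_mod_cast hn1
  obtain ⟨A₀, hSRq⟩ := hSRq F
  obtain ⟨Cn, E, hCn, hE, hNCR⟩ := hNCR F
  obtain ⟨hr1, hr2, cc, hcc, hCQ⟩ := hCQ F
  refine ⟨max A₀ 1, fun A ε₁ c C₀ hA hε0 hε1 hc hC₀ => ?_⟩
  have hA0 : A₀ ≤ A := (le_max_left _ _).trans hA
  have hA1 : 1 ≤ A := (le_max_right _ _).trans hA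
  obtain ⟨B₁, hB₁, hSRq⟩ := hSRq A ε₁ c C₀ hA0 hε0 hε1 hc hC₀
  obtain ⟨B₂, hB₂, x₂, hx2⟩ := hSRd F A ε₁ C₀ hA1 hε0 hε1 hC₀
  obtain ⟨C₃, B₃, k, hC₃, hB₃, hRS⟩ := hRS F (5 * n * C₀) (by positivity)
  set B : ℝ := max B₁ (max B₂ B₃) with hBdef
  have hBa : B₁ ≤ B := le_max_left _ _
  have hBb : B₂ ≤ B := (le_max_left _ _).trans (le_max_right _ _)
  have hBc : B₃ ≤ B := (le_max_right _ _).trans (le_max_right _ _)
  have hB0 : 0 ≤ B := hB₁.trans hBa
  refine ⟨B, hB0, fun η hη => ?_⟩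
  have h3B : (0 : ℝ) < 3 ^ B := Real.rpow_pos_of_pos (by norm_num) _
  have h3B1 : (1 : ℝ) ≤ 3 ^ B := Real.one_le_rpow (by norm_num) hB0
  obtain ⟨κ, hκ⟩ : ∃ κ : ℝ, κ = η / (4 * 3 ^ B) := ⟨_, rfl⟩
  have hκ0 : 0 < κ := by rw [hκ]; positivity
  obtain ⟨x₁, hx1⟩ := hSRq κ hκ0
  obtain ⟨x₃, hx3⟩ := hNCR A
  obtain ⟨x₄, hx4⟩ := hPAR F A
  obtain ⟨x₅, hx5⟩ := hSND n A
  obtain ⟨D0, hD0⟩ : ∃ D0 : ℝ, D0 = max 1 (max (cc ^ 2) ((cc ^ 2)⁻¹)) := ⟨_, rfl⟩
  have hD1 : 1 ≤ D0 := by rw [hD0]; exact le_max_left _ _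
  have hD2 : cc ^ 2 ≤ D0 := by rw [hD0]; exact (le_max_left _ _).trans (le_max_right _ _)
  have hD3 : (cc ^ 2)⁻¹ ≤ D0 := by rw [hD0]; exact (le_max_right _ _).trans (le_max_right _ _)
  obtain ⟨x₆, hx6e, hx6⟩ := num (n := n) (A := A) k hn1 hA1 hε0 hε1 (1 : ℝ) hκ0 hD1 hC₃.le
  refine ⟨max (max (max x₁ x₂) (max x₃ x₄)) (max (max x₅ x₆) (Real.exp (32 * C₀))),
    fun x q hx hSp α β γ u hα hβ hαβ hγ0 hγ1 => ?_⟩
  have hxa : x₁ ≤ x :=
    (((le_max_left _ _).trans (le_max_left _ _)).trans (le_max_left _ _)).trans hx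
  have hxb : x₂ ≤ x :=
    (((le_max_right _ _).trans (le_max_left _ _)).trans (le_max_left _ _)).trans hx
  have hxc : x₃ ≤ x :=
    (((le_max_left _ _).trans (le_max_right _ _)).trans (le_max_left _ _)).trans hx
  have hxd : x₄ ≤ x :=
    (((le_max_right _ _).trans (le_max_right _ _)).trans (le_max_left _ _)).trans hx
  have hxe : x₅ ≤ x :=
    (((le_max_left _ _).trans (le_max_left _ _)).trans (le_max_right _ _)).trans hx
  have hxf : x₆ ≤ x :=
    (((le_max_right _ _).trans (le_max_left _ _)).trans (le_max_right _ _)).trans hx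
  have hxg : Real.exp (32 * C₀) ≤ x := ((le_max_right _ _).trans (le_max_right _ _)).trans hx
  have hxexp : Real.exp 1 ≤ x := hx6e.trans hxf
  have hx0 : 0 < x := (Real.exp_pos 1).trans_le hxexp
  have hlx : 1 ≤ Real.log x := by
    rw [Real.le_log_iff_exp_le hx0]
    exact hxexp
  have hlx2 : 32 * C₀ ≤ Real.log x := by
    rw [Real.le_log_iff_exp_le hx0]
    exact hxg
  -- the parameters
  obtain ⟨hq1, hq2, hrc, hlog⟩ := hx4 x q hxd hSp
  have hlq2 : Real.log x / 2 ≤ Real.log q := by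
    refine le_trans ?_ hq1
    have : Real.log x ≤ Real.log x ^ (A + 1) := le_self_pow₀ hlx (by omega)
    linarith
  have hlogq : 0 < Real.log q := by linarith
  have hq2' : 2 ≤ q := by
    by_contra hcon
    have h1 : q = 0 ∨ q = 1 := by omega
    rcases h1 with h1 | h1 <;> rw [h1] at hlogq <;> simp at hlogq
  have hbot := qi_ne_bot' F q hq2'
  obtain ⟨hcB, hnmq⟩ := hCQ q (by omega)
  -- the shifts
  have hδ : C₀ / Real.log q ≤ 1 / 16 := by
    rw [div_le_iff₀ hlogq]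
    linarith
  obtain ⟨hs1, hs2, him⟩ := Pool.Agent.H81.CRG.shift (hδ.trans (by norm_num)) α β u hα hβ
  -- the facts about the relations, before the abbreviations
  have hSq := fun X hX => hx1 x q hxa hSp α β γ u hα hβ hαβ hγ0 hγ1 X hX
  have hSd := hx2 x q hxb hSp α β u (cg F (Mo F ε₁ q) γ u) (cg F (Mo F ε₁ q) γ (-u)) hα hβ
  set m : Ideal (𝓞 F) := qi F q with hm
  have hnm0 : 0 < nm m := by
    rw [nm]
    exact_mod_cast Nat.pos_of_ne_zero (by
      rw [Ne, Ideal.absNorm_eq_zero_iff]; exact hbot)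
  set L : ℝ := Real.log (nm m) with hL
  rw [← hn] at hlog hrc
  obtain ⟨hL0, hM0, hLD, hlogs, hrs, hcard, hx8⟩ := hx6 x L hxf
    (by rw [hlog]; exact mul_le_mul_of_nonneg_left hq1 (by linarith))
    (by rw [hlog]; exact mul_le_mul_of_nonneg_left hq2 (by linarith))
  have hnmL : nm m = Real.exp L := (Real.exp_log hnm0).symm
  have hL2 : 1 ≤ 2 * L := by
    rw [hlog]
    have h1 : (1 : ℝ) / 2 ≤ Real.log q := by linarith
    have h2 : (1 : ℝ) * (1 / 2) ≤ n * Real.log q :=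
      mul_le_mul hnr h1 (by norm_num) (by linarith)
    linarith
  obtain ⟨M, hM⟩ : ∃ M : ℝ, M = Mo F ε₁ q := ⟨_, rfl⟩
  obtain ⟨Q, hQ⟩ : ∃ Q : ℝ, Q = cB F m ^ 2 := ⟨_, rfl⟩
  have hME : M = Real.exp ((1 / 2 - ε₁) * L) := by
    rw [hM, Mo, ← hm, Real.rpow_def_of_pos hnm0, ← hL]
    congr 1
    ring
  have hM1 : 1 ≤ M := by
    rw [hME]
    exact Real.one_le_exp (by
      have : 0 ≤ 1 / 2 - ε₁ := by linarith
      positivity)
  have hMpos : 0 < M := by linarith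
  have hlogM : Real.log M = (1 / 2 - ε₁) * L := by rw [hME, Real.log_exp]
  have hcc2 : 0 < cc ^ 2 := by positivity
  have hQE : Q = cc ^ 2 * nm m := by
    rw [hQ, hcB, hnmq, hr2, mul_pow, ← pow_mul]
    ring_nf
  have hlogQ : Real.log Q = Real.log (cc ^ 2) + L := by
    rw [hQE, Real.log_mul hcc2.ne' hnm0.ne']
  have hQ0 : 0 < Q := by rw [hQE]; positivity
  have hlD1 : Real.log (cc ^ 2) ≤ Real.log D0 := Real.log_le_log hcc2 hD2
  have hlD2 : -Real.log (cc ^ 2) ≤ Real.log D0 := by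
    rw [← Real.log_inv]
    exact Real.log_le_log (by positivity) hD3
  have hlD0 : 0 ≤ Real.log D0 := Real.log_nonneg hD1
  have hlogQ0 : 0 ≤ Real.log Q := by rw [hlogQ]; linarith
  have hQ1 : 1 ≤ Q := (Real.log_nonneg_iff hQ0).1 hlogQ0
  have hlogQ2 : Real.log Q ≤ Real.log D0 + L := by rw [hlogQ]; linarith
  have hlogM0 : 0 ≤ Real.log M := Real.log_nonneg hM1
  have hlogM2 : Real.log M ≤ L := by
    rw [hlogM]
    exact mul_le_of_le_one_left hL0.le (by linarith)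
  -- the size of the shifts
  obtain ⟨s₁, hs₁⟩ : ∃ s₁ : ℂ, s₁ = 1 / 2 + α + u * I := ⟨_, rfl⟩
  obtain ⟨s₂, hs₂⟩ : ∃ s₂ : ℂ, s₂ = 1 / 2 + β - u * I := ⟨_, rfl⟩
  obtain ⟨c₁, hc₁d⟩ : ∃ c₁ : Finset (PrI F) → ℂ, c₁ = cg F M γ u := ⟨_, rfl⟩
  obtain ⟨c₂, hc₂d⟩ : ∃ c₂ : Finset (PrI F) → ℂ, c₂ = cg F M γ (-u) := ⟨_, rfl⟩
  rw [← hs₁] at hs1 him
  rw [← hs₂] at hs2 him
  have hc₁ : ∀ S, ‖c₁ S‖ ≤ nS np S ^ (-(1 / 2) : ℝ) := fun S => by
    rw [hc₁d]; exact sew_norm hM1 hγ0 u S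
  have hc₂ : ∀ S, ‖c₂ S‖ ≤ nS np S ^ (-(1 / 2) : ℝ) := fun S => by
    rw [hc₂d]; exact sew_norm hM1 hγ0 (-u) S
  simp only [← hM, ← hQ, ← hs₁, ← hs₂] at hSq hSd ⊢
  simp only [← hc₁d, ← hc₂d] at hSq hSd ⊢
  replace hSd := hSd hc₁ hc₂
  have hsz : ∀ r : ℝ, r ≤ C₀ / Real.log q →
      r * (1 + Real.log Q + Real.log M) ≤ 5 * n * C₀ := by
    intro r hr
    have h1 : 1 + Real.log Q + Real.log M ≤ 5 * L := by linarith
    have h0 : 0 ≤ 1 + Real.log Q + Real.log M := by linarith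
    have h2 : 0 ≤ C₀ / Real.log q := by positivity
    calc r * (1 + Real.log Q + Real.log M) ≤ C₀ / Real.log q * (1 + Real.log Q + Real.log M) :=
          mul_le_mul_of_nonneg_right hr h0
      _ ≤ C₀ / Real.log q * (5 * L) := mul_le_mul_of_nonneg_left h1 h2
      _ = 5 * n * C₀ := by
          rw [hlog]
          field_simp
  -- the growth factors
  obtain ⟨W, hW⟩ : ∃ W : ℝ, W = 3 ^ B * (1 + |u|) ^ B := ⟨_, rfl⟩
  have hu1 : 1 ≤ 1 + |u| := by
    have := abs_nonneg u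
    linarith
  have hb1 : 1 ≤ 1 + |s₁.im| + |s₂.im| := by
    have := abs_nonneg s₁.im
    have := abs_nonneg s₂.im
    linarith
  have hWW : (1 + |s₁.im| + |s₂.im|) ^ B ≤ W := by
    rw [hW, ← Real.mul_rpow (by norm_num) (by linarith)]
    exact Real.rpow_le_rpow (by linarith) him hB0
  have hW3 : (1 + |s₁.im| + |s₂.im|) ^ B₃ ≤ W :=
    (Real.rpow_le_rpow_of_exponent_le hb1 hBc).trans hWW
  have hu0 : (0 : ℝ) < (1 + |u|) ^ B := Real.rpow_pos_of_pos (by linarith) _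
  have huW : (1 + |u|) ^ B ≤ W := by
    rw [hW]
    exact le_mul_of_one_le_left hu0.le h3B1
  have hW1 : (1 + |u|) ^ B₁ ≤ W := (Real.rpow_le_rpow_of_exponent_le hu1 hBa).trans huW
  have hW2 : (1 + |u|) ^ B₂ ≤ W := (Real.rpow_le_rpow_of_exponent_le hu1 hBb).trans huW
  have hW0 : 0 ≤ W := by rw [hW]; positivity
  -- characters
  obtain ⟨hfin, T, σ, hT1, hσ1, hT2, hT3, hsum⟩ := hIE F q hSp.sq
  rw [← hm] at hfin hT1 hσ1 hT2 hsum
  rw [← hn] at hT3
  obtain ⟨N, hN⟩ : ∃ N : ℝ, N = (nc m m : ℝ) := ⟨_, rfl⟩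
  obtain ⟨hNpos', -, -⟩ := hx3 x q hxc hSp
  have hNpos : 0 < N := by
    rw [hN, hm]
    exact_mod_cast hNpos'
  obtain ⟨D, hD⟩ : ∃ D : Ideal (𝓞 F) × Ideal (𝓞 F) → ℂ,
      D = fun p => Dz m Q M s₁ s₂ c₁ c₂ p.1 p.2 := ⟨_, rfl⟩
  have hDa : ∀ p, D p = Dz m Q M s₁ s₂ c₁ c₂ p.1 p.2 := fun p => by rw [hD]
  simp only [← hDa] at hSq hSd
  rw [← hN] at hSd
  have hre1 := abs_le.1 (hs1.trans hδ)
  have hre2 := abs_le.1 (hs2.trans hδ)
  -- the opened second moment for each divisor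
  have hop : ∀ d : Ideal (𝓞 F), m ≤ d → Summable (fun p : CP m d => ‖D p.1‖) ∧
      ∑ᶠ ψ ∈ Ch m d, A2n Q s₁ s₂ ψ * (pol M c₁ ψ *
        pol M c₂ (fun I => (starRingEnd ℂ) (ψ I))) = nc m d * ∑' p : CP m d, D p.1 := by
    intro d hd
    have h1 := hOP F m d Q M s₁ s₂ c₁ c₂ hbot hd hQ0 hM1 (by linarith [hre1.1])
      (by linarith [hre1.2]) (by linarith [hre2.1]) (by linarith [hre2.2])
    simp only [← hDa] at h1
    exact h1
  -- the proper divisors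
  have hprop : ∀ d : Ideal (𝓞 F), m ≤ d → d ≠ m →
      (nc m d : ℝ) * ‖∑' p : CP m d, D p.1‖ ≤
        W * (N * (x ^ (1 / 8 : ℝ) * pd q d ^ (-(3 / 4) : ℝ) + nm m ^ (-(ε₁ / 8)))) := by
    intro d hd hdq
    have hpd : 0 ≤ pd q d := by
      unfold pd
      exact Finset.prod_nonneg fun p _ => Nat.cast_nonneg _
    have hnn : 0 ≤ N * (x ^ (1 / 8 : ℝ) * pd q d ^ (-(3 / 4) : ℝ) + nm m ^ (-(ε₁ / 8))) := by
      positivity
    have h3 : (nc m d : ℝ) * ∑' p : CP m d, ‖D p.1‖ ≤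
        W * (N * (x ^ (1 / 8 : ℝ) * pd q d ^ (-(3 / 4) : ℝ) + nm m ^ (-(ε₁ / 8)))) := by
      rw [← tsum_mul_left]
      refine (tsum_norm_le' (CP m d) (fun p => (nc m d : ℝ) * ‖D p‖)
        (fun p => by positivity) _ ?_).2
      intro X hX
      rw [← Finset.mul_sum]
      exact (hSd d hd hdq X hX).trans (mul_le_mul_of_nonneg_right hW2 hnn)
    refine le_trans ?_ h3
    refine mul_le_mul_of_nonneg_left ?_ (Nat.cast_nonneg _)
    exact norm_tsum_le_tsum_norm (hop d hd).1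
  -- the main term
  have htop : ((⊤, ⊤) : Ideal (𝓞 F) × Ideal (𝓞 F)) ∈ CP m m := by
    refine ⟨top_ne_bot, top_ne_bot, top_sup_eq _, top_sup_eq _, top_sup_eq _, 1, 1, one_ne_zero,
      one_ne_zero, ?_, ?_, ?_, rfl⟩
    · rw [Ideal.span_singleton_one, top_sup_eq]
    · rw [Ideal.span_singleton_one, top_sup_eq]
    · rw [sub_self]; exact Ideal.zero_mem _
  have hmain : ‖(∑' p : CP m m, D p.1) - D (⊤, ⊤)‖ ≤ κ * W := by
    have h2 := ((hop m le_rfl).1).of_norm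
    have h3 := h2.tsum_eq_add_tsum_ite ⟨(⊤, ⊤), htop⟩
    rw [h3, add_sub_cancel_left]
    set G : Ideal (𝓞 F) × Ideal (𝓞 F) → ℝ := fun p => if p = (⊤, ⊤) then 0 else ‖D p‖ with hG
    have hG0 : ∀ p, 0 ≤ G p := by
      intro p
      rw [hG]
      dsimp only
      split_ifs
      · exact le_rfl
      · exact norm_nonneg _
    have h4 : ∀ p : CP m m,
        ‖(if p = ⟨(⊤, ⊤), htop⟩ then 0 else D p.1 : ℂ)‖ = G p.1 := by
      intro p
      rw [hG]
      dsimp only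
      by_cases h5 : p.1 = (⊤, ⊤)
      · rw [if_pos h5, if_pos (Subtype.ext h5), norm_zero]
      · rw [if_neg h5, if_neg (fun h6 => h5 (congrArg Subtype.val h6))]
    have h5 := tsum_norm_le' (CP m m) G hG0 (κ * W) (by
      intro X hX
      have h6 : ∑ p ∈ X, G p = ∑ p ∈ X.filter (fun p => p ≠ (⊤, ⊤)), ‖D p‖ := by
        rw [Finset.sum_filter]
        refine Finset.sum_congr rfl fun p _ => ?_
        rw [hG]
        dsimp only
        by_cases h7 : p = (⊤, ⊤)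
        · rw [if_pos h7, if_neg (by simpa using h7)]
        · rw [if_neg h7, if_pos h7]
      rw [h6]
      refine (hSq (X.filter (fun p => p ≠ (⊤, ⊤))) (by
        intro p hp
        rw [Finset.mem_filter] at hp
        exact ⟨hX p hp.1, hp.2⟩)).trans ?_
      exact mul_le_mul_of_nonneg_left hW1 hκ0.le)
    calc ‖∑' p : CP m m, (if p = ⟨(⊤, ⊤), htop⟩ then 0 else D p.1 : ℂ)‖
        ≤ ∑' p : CP m m, ‖(if p = ⟨(⊤, ⊤), htop⟩ then 0 else D p.1 : ℂ)‖ := by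
          refine norm_tsum_le_tsum_norm ?_
          simp only [h4]
          exact h5.1
      _ = ∑' p : CP m m, G p.1 := tsum_congr h4
      _ ≤ κ * W := h5.2
  have hdiag : ‖D (⊤, ⊤) - Dn (K := F) ⊤ Q M s₁ s₂ c₁ c₂ ⊤ ⊤‖ ≤ κ * W := by
    have h1 := hRS m Q M s₁ s₂ c₁ c₂ ⊤ ⊤ hbot hQ1 hM1 (hs1.trans hδ) (hs2.trans hδ)
      (hsz _ hs1) (hsz _ hs2) hc₁ hc₂ top_ne_bot top_ne_bot (top_sup_eq _) (top_sup_eq _)
      (top_sup_eq _)
    rw [wt_top, mul_one] at h1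
    rw [hDa]
    refine h1.trans ?_
    have hrc0 : 0 ≤ rc m := by
      unfold rc
      exact Finset.sum_nonneg fun P _ => inv_nonneg.2 (Pool.Agent.H96.CV.np_pos P).le
    have h2 : C₃ * (1 + Real.log Q + Real.log M) ^ k * rc m ≤ κ := by
      refine le_trans ?_ hrs
      have h0 : 0 ≤ 1 + Real.log Q + Real.log M := by linarith
      have h3 : (1 + Real.log Q + Real.log M) ^ k ≤
          (1 + (Real.log D0 + L) + (1 / 2 - ε₁) * L) ^ k := by
        refine pow_le_pow_left₀ h0 ?_ k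
        rw [hlogM]
        linarith
      calc C₃ * (1 + Real.log Q + Real.log M) ^ k * rc m
          ≤ C₃ * (1 + (Real.log D0 + L) + (1 / 2 - ε₁) * L) ^ k * rc m :=
            mul_le_mul_of_nonneg_right (mul_le_mul_of_nonneg_left h3 hC₃.le) hrc0
        _ ≤ _ := by
            refine mul_le_mul_of_nonneg_left hrc ?_
            exact mul_nonneg hC₃.le ((pow_nonneg h0 k).trans h3)
    calc C₃ * (1 + |s₁.im| + |s₂.im|) ^ B₃ * (1 + Real.log Q + Real.log M) ^ k * rc m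
        = (C₃ * (1 + Real.log Q + Real.log M) ^ k * rc m) * (1 + |s₁.im| + |s₂.im|) ^ B₃ := by
          ring
      _ ≤ κ * (1 + |s₁.im| + |s₂.im|) ^ B₃ := mul_le_mul_of_nonneg_right h2 (by positivity)
      _ ≤ κ * W := mul_le_mul_of_nonneg_left hW3 hκ0.le
  -- the sum over the primitive characters
  have hall : (∑ᶠ χ ∈ Pr F m, A2n Q s₁ s₂ χ.ψ * (pol M c₁ χ.ψ *
        pol M c₂ (fun I => (starRingEnd ℂ) (χ.ψ I)))) =
      ∑ d ∈ T, (σ d : ℂ) * (nc m d * ∑' p : CP m d, D p.1) := by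
    have h2 := hsum (fun ψ => A2n Q s₁ s₂ ψ * (pol M c₁ ψ *
        pol M c₂ (fun I => (starRingEnd ℂ) (ψ I))))
    rw [h2]
    exact Finset.sum_congr rfl fun d hd => by rw [(hop d (hT2 d hd).1).2]
  rw [hall, ← Finset.add_sum_erase T _ hT1, hσ1, Int.cast_one, one_mul]
  -- the sum over the proper divisors
  have hmem : ∀ d ∈ T.erase m, Pd q d ∈ q.primeFactors.powerset.erase ∅ := by
    intro d hd
    rw [Finset.mem_erase] at hd
    rw [Finset.mem_erase, Finset.mem_powerset]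
    refine ⟨((hT2 d hd.2).2.2 hd.1).ne_empty, ?_⟩
    unfold Pd
    exact Finset.filter_subset _ _
  have hmem' : ∀ d ∈ T, Pd q d ∈ q.primeFactors.powerset := by
    intro d hd
    rw [Finset.mem_powerset]
    unfold Pd
    exact Finset.filter_subset _ _
  have hS1 : ∑ d ∈ T.erase m, pd q d ^ (-(3 / 4) : ℝ) ≤ x ^ (-(1 / 4) : ℝ) := by
    rw [← Finset.sum_fiberwise_of_maps_to hmem]
    refine le_trans (Finset.sum_le_sum fun R hR => ?_) (hx5 x q.primeFactors hxe hSp.low hSp.hi)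
    have h1 : ∀ d ∈ (T.erase m).filter (fun d => Pd q d = R),
        pd q d ^ (-(3 / 4) : ℝ) = (∏ p ∈ R, (p : ℝ)) ^ (-(3 / 4) : ℝ) := by
      intro d hd
      rw [Finset.mem_filter] at hd
      rw [pd, hd.2]
    rw [Finset.sum_congr rfl h1, Finset.sum_const, nsmul_eq_mul]
    refine mul_le_mul_of_nonneg_right ?_ (Real.rpow_nonneg (Finset.prod_nonneg fun p _ =>
      Nat.cast_nonneg _) _)
    have h2 : ((T.erase m).filter (fun d => Pd q d = R)).card ≤ 2 ^ (n * R.card) :=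
      (Finset.card_le_card (Finset.filter_subset_filter _ (Finset.erase_subset _ _))).trans
        (hT3 R)
    exact_mod_cast h2
  have hS2 : ((T.erase m).card : ℝ) * nm m ^ (-(ε₁ / 8)) ≤ κ := by
    have h1 : T.card ≤ 2 ^ ((n + 1) * q.primeFactors.card) := by
      calc T.card = ∑ R ∈ q.primeFactors.powerset, (T.filter fun d => Pd q d = R).card :=
            Finset.card_eq_sum_card_fiberwise hmem'
        _ ≤ ∑ R ∈ q.primeFactors.powerset, 2 ^ (n * q.primeFactors.card) := by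
            refine Finset.sum_le_sum fun R hR => (hT3 R).trans ?_
            refine Nat.pow_le_pow_right (by norm_num) (Nat.mul_le_mul_left _ ?_)
            exact Finset.card_le_card (Finset.mem_powerset.1 hR)
        _ = 2 ^ ((n + 1) * q.primeFactors.card) := by
            rw [Finset.sum_const, Finset.card_powerset, smul_eq_mul, ← pow_add]
            congr 1
            ring
    have h2 : nm m ^ (-(ε₁ / 8)) = Real.exp (-(ε₁ / 8) * L) := by
      rw [Real.rpow_def_of_pos hnm0, ← hL]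
      congr 1
      ring
    rw [h2]
    refine le_trans ?_ (hcard q.primeFactors.card hSp.hi)
    refine mul_le_mul_of_nonneg_right ?_ (Real.exp_pos _).le
    have h3 : (T.erase m).card ≤ 2 ^ ((n + 1) * q.primeFactors.card) :=
      (Finset.card_le_card (Finset.erase_subset _ _)).trans h1
    exact_mod_cast h3
  have hBB : ‖∑ d ∈ T.erase m, (σ d : ℂ) * (nc m d * ∑' p : CP m d, D p.1)‖ ≤
      2 * κ * W * N := by
    have h2 : ∀ d ∈ T.erase m, ‖(σ d : ℂ) * (nc m d * ∑' p : CP m d, D p.1)‖ ≤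
        W * N * (x ^ (1 / 8 : ℝ) * pd q d ^ (-(3 / 4) : ℝ) + nm m ^ (-(ε₁ / 8))) := by
      intro d hd
      rw [Finset.mem_erase] at hd
      obtain ⟨hd1, hd2, hd3⟩ := hT2 d hd.2
      rw [norm_mul, norm_mul, Complex.norm_natCast]
      have h3 : ‖(σ d : ℂ)‖ ≤ 1 := by
        rw [Complex.norm_intCast]
        exact_mod_cast hd2
      have h4 := hprop d hd1 hd.1
      calc ‖(σ d : ℂ)‖ * ((nc m d : ℝ) * ‖∑' p : CP m d, D p.1‖)
          ≤ 1 * ((nc m d : ℝ) * ‖∑' p : CP m d, D p.1‖) :=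
            mul_le_mul_of_nonneg_right h3 (by positivity)
        _ ≤ _ := by linarith
    refine (norm_sum_le _ _).trans ((Finset.sum_le_sum h2).trans ?_)
    rw [← Finset.mul_sum, Finset.sum_add_distrib, ← Finset.mul_sum, Finset.sum_const,
      nsmul_eq_mul]
    have h5 : x ^ (1 / 8 : ℝ) * ∑ d ∈ T.erase m, pd q d ^ (-(3 / 4) : ℝ) ≤ κ := by
      calc x ^ (1 / 8 : ℝ) * ∑ d ∈ T.erase m, pd q d ^ (-(3 / 4) : ℝ)
          ≤ x ^ (1 / 8 : ℝ) * x ^ (-(1 / 4) : ℝ) :=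
            mul_le_mul_of_nonneg_left hS1 (by positivity)
        _ = x ^ (-(1 / 8) : ℝ) := by
            rw [← Real.rpow_add hx0]
            congr 1
            norm_num
        _ ≤ κ := hx8
    have h6 : W * N * (x ^ (1 / 8 : ℝ) * ∑ d ∈ T.erase m, pd q d ^ (-(3 / 4) : ℝ) +
        ((T.erase m).card : ℝ) * nm m ^ (-(ε₁ / 8))) ≤ W * N * (κ + κ) :=
      mul_le_mul_of_nonneg_left (add_le_add h5 hS2) (by positivity)
    refine h6.trans (le_of_eq ?_)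
    ring
  have hid : (nc m m : ℂ) * (∑' p : CP m m, D p.1) +
        ∑ d ∈ T.erase m, (σ d : ℂ) * (nc m d * ∑' p : CP m d, D p.1) -
      (nc m m : ℂ) * Dn (K := F) ⊤ Q M s₁ s₂ c₁ c₂ ⊤ ⊤ =
      (N : ℂ) * ((∑' p : CP m m, D p.1) - D (⊤, ⊤)) +
        (N : ℂ) * (D (⊤, ⊤) - Dn (K := F) ⊤ Q M s₁ s₂ c₁ c₂ ⊤ ⊤) +
        ∑ d ∈ T.erase m, (σ d : ℂ) * (nc m d * ∑' p : CP m d, D p.1) := by
    rw [hN, Complex.ofReal_natCast]
    ring
  refine (le_of_eq (congrArg norm hid)).trans ?_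
  refine (norm_add₃_le).trans ?_
  have h9 : ‖(N : ℂ) * ((∑' p : CP m m, D p.1) - D (⊤, ⊤))‖ ≤ N * (κ * W) := by
    rw [norm_mul, Complex.norm_real, Real.norm_of_nonneg hNpos.le]
    exact mul_le_mul_of_nonneg_left hmain hNpos.le
  have h10 : ‖(N : ℂ) * (D (⊤, ⊤) - Dn (K := F) ⊤ Q M s₁ s₂ c₁ c₂ ⊤ ⊤)‖ ≤ N * (κ * W) := by
    rw [norm_mul, Complex.norm_real, Real.norm_of_nonneg hNpos.le]
    exact mul_le_mul_of_nonneg_left hdiag hNpos.le
  have h11 : 4 * κ * W * N = η * (1 + |u|) ^ B * N := by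
    rw [hκ, hW]
    field_simp
  rw [← hN, ← h11]
  linarith

end Pool.Agent.H46.SM
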